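import Pool.Agent.helper81.CW.Spec2
import Pool.Agent.helper96.PL2

/-! # cw:G6: the isodiametric inequality from the Prekopa-Leindler inequality -/

open MeasureTheory Set
open scoped ENNReal Pointwise

namespace Pool.Agent.helper81.CW

theorem G6 : G6_stmt := by
  intro n K D hK hD hdiam
  have hφ : MeasurePreserving (WithLp.toLp 2 : (Fin n → ℝ) → E n) volume volume :=
    PiLp.volume_preserving_toLp (Fin n)
  set A : Set (Fin n → ℝ) := (WithLp.toLp 2 : (Fin n → ℝ) → E n) ⁻¹' K with hA
  set B : Set (Fin n → ℝ) := (WithLp.toLp 2 : (Fin n → ℝ) → E n) ⁻¹' (-K) with hB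
  set C : Set (Fin n → ℝ) := (WithLp.toLp 2 : (Fin n → ℝ) → E n) ⁻¹'
    (Metric.closedBall (0 : E n) (D / 2)) with hC
  have mA : MeasurableSet A := hφ.measurable hK
  have mB : MeasurableSet B := hφ.measurable hK.neg
  have mC : MeasurableSet C := hφ.measurable measurableSet_closedBall
  have vA : volume A = volume K := hφ.measure_preimage hK.nullMeasurableSet
  have vB : volume B = volume K := by
    rw [hφ.measure_preimage hK.neg.nullMeasurableSet, Measure.measure_neg]
  have vC : volume C = volume (Metric.closedBall (0 : E n) (D / 2)) :=
    hφ.measure_preimage measurableSet_closedBall.nullMeasurableSet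
  have key := Pool.Agent.helper96.prekopa_leindler (t := 1 / 2) (by norm_num) (by norm_num) n
    (f := A.indicator fun _ => 1) (g := B.indicator fun _ => 1) (h := C.indicator fun _ => 1)
    (measurable_const.indicator mA) (measurable_const.indicator mB)
    (measurable_const.indicator mC) (by
      intro x y
      by_cases hx : x ∈ A
      · by_cases hy : y ∈ B
        · have hxy : (1 / 2 : ℝ) • x + (1 - 1 / 2 : ℝ) • y ∈ C := by
            have h1 := hdiam _ hx _ (Set.mem_neg.mp hy)
            rw [sub_neg_eq_add] at h1
            rw [hC, Set.mem_preimage, mem_closedBall_zero_iff]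
            have e : (WithLp.toLp 2 ((1 / 2 : ℝ) • x + (1 - 1 / 2 : ℝ) • y) : E n) =
                (1 / 2 : ℝ) • ((WithLp.toLp 2 x : E n) + (WithLp.toLp 2 y : E n)) := by
              rw [WithLp.toLp_add, WithLp.toLp_smul, WithLp.toLp_smul, smul_add]
              norm_num
            rw [e, norm_smul, Real.norm_of_nonneg (by norm_num)]
            linarith
          rw [Set.indicator_of_mem hx, Set.indicator_of_mem hy, Set.indicator_of_mem hxy]
          simp
        · rw [Set.indicator_of_notMem hy, ENNReal.zero_rpow_of_pos (by norm_num), mul_zero]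
          exact zero_le
      · rw [Set.indicator_of_notMem hx, ENNReal.zero_rpow_of_pos (by norm_num), zero_mul]
        exact zero_le)
  rw [lintegral_indicator_const mA, lintegral_indicator_const mB, lintegral_indicator_const mC,
    one_mul, one_mul, one_mul, vA, vB, vC, ← ENNReal.rpow_add_of_nonneg _ _ (by norm_num)
    (by norm_num)] at key
  norm_num at key
  exact key

end Pool.Agent.helper81.CW
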